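import Pool.Agent.H43.PL.H53.MIX.ContraQ
import Pool.Agent.H43.PL.M04
import Pool.Agent.H43.PL.M10

/-!
# LM LfuY: local Fourier uniformity of `Fp f P`, general bounded `f`, `P ≥ exp((log N)^t)`

Copy of `Pool.Agent.H53.MIX.lfu_x` (file `H53/MIX/LfuX.lean`) with a general `f`, `|f| ≤ 1`, as in `Pool.Agent.H53.TPS.lfu2` (file `H53/TPS/Lfu2.lean`: `g = cut (N/(16P)) (12N/P) f`, `ms_f`), and `ms_y` in place of `ms_w` / `ms_f`.
`SqB f 1 X L` for `|f| ≤ 1`, `L ≥ 1` is trivial (`w0 = 1`).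
-/

set_option autoImplicit false

namespace Pool.Agent.H43.LM

open Finset MeasureTheory
open Pool.Agent.H91.PK (ee)
open Pool.Agent.H53.MID (Fp badB)
open Pool.Agent.H53.MIX (VKw CombX)
open Pool.Agent.H53.TPS (SWf)

open Pool.Agent.H53.MID (cc cut SqB Dw Bs nz Rel base)
open Pool.Agent.H53.MIX (contra_q)

/-- the indices of the blocks -/
private theorem LfuY_range {N H i : ℕ} (hH : 8 ≤ H) (hHN : H ^ 2 ≤ N)
    (hi : i ∈ Icc (N / (2 * H)) (4 * N / H)) :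
    ((N / H : ℕ) : ℝ) / 10 ≤ i ∧ (i : ℝ) ≤ 10 * ((N / H : ℕ) : ℝ) ∧ N ≤ 4 * (i * H) ∧
      (i + 1) * H ≤ 5 * N := by
  rw [mem_Icc] at hi
  obtain ⟨h1, h2⟩ := hi
  have hH0 : 0 < H := by omega
  have e1 : N / (2 * H) = N / H / 2 := by
    rw [Nat.div_div_eq_div_mul, mul_comm]
  rw [e1] at h1
  have h8 : 8 * H ≤ N := by nlinarith only [hHN, hH]
  have hn8 : 8 ≤ N / H := (Nat.le_div_iff_mul_le hH0).mpr h8
  have hnH : N / H * H ≤ N := Nat.div_mul_le_self N H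
  have hnH2 : N < (N / H + 1) * H := by
    have := Nat.lt_mul_div_succ N hH0
    rw [mul_comm]
    exact this
  have h3 : N / H ≤ 2 * i + 1 := by omega
  have h4 : 4 * N / H ≤ 4 * (N / H) + 3 := by
    have h5 : 4 * N < (4 * (N / H) + 4) * H := by nlinarith only [hnH2]
    have h6 : 4 * N / H < 4 * (N / H) + 4 := by
      rw [Nat.div_lt_iff_lt_mul hH0]
      exact h5
    omega
  have h5 : 4 * N / H * H ≤ 4 * N := Nat.div_mul_le_self _ _
  refine ⟨?_, ?_, ?_, ?_⟩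
  · have h6 : ((N / H : ℕ) : ℝ) ≤ 2 * i + 1 := by exact_mod_cast h3
    have h7 : (8 : ℝ) ≤ ((N / H : ℕ) : ℝ) := by exact_mod_cast hn8
    linarith only [h6, h7]
  · have h6 : i ≤ 10 * (N / H) := by omega
    exact_mod_cast h6
  · have h6 : (N / H + 1) * H ≤ (2 * i + 2) * H := Nat.mul_le_mul_right H (by omega)
    nlinarith only [hH, h8, hnH2, h6]
  · have h6 : i * H ≤ 4 * N / H * H := Nat.mul_le_mul_right H h2
    nlinarith only [hH, h8, h5, h6]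

/-- cutting off the coefficients does not change the values on the blocks -/
private theorem LfuY_cut {N P m : ℕ} (g : ℕ → ℝ) (hN : 0 < N) (hP : 0 < P) (h1 : N ≤ 4 * m)
    (h2 : m ≤ 5 * N) :
    Fp (cut (N / (16 * P)) (12 * N / P) g) P m = Fp g P m := by
  unfold Fp
  apply Finset.sum_congr rfl
  intro p hp
  rw [Finset.mem_filter] at hp
  obtain ⟨hp1, k, rfl⟩ := hp
  unfold Pool.Agent.H35.W.pb at hp1
  rw [Finset.mem_filter, mem_Ioc] at hp1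
  obtain ⟨⟨hp2, hp3⟩, -⟩ := hp1
  have hp0 : 0 < p := by omega
  rw [Nat.mul_div_cancel_left k hp0]
  unfold cut
  rw [if_pos]
  rw [mem_Ioc]
  have hk : 0 < k := by
    rcases Nat.eq_zero_or_pos k with h | h
    · rw [h] at h1
      omega
    · exact h
  constructor
  · have h3 : N / (16 * P) * (16 * P) ≤ N := Nat.div_mul_le_self _ _
    have h4 : 4 * (p * k) ≤ 8 * (P * k) := by
      have : p * k ≤ 2 * P * k := Nat.mul_le_mul_right k hp3
      nlinarith only [this]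
    have h5 : P * (2 * (N / (16 * P))) ≤ P * k := by nlinarith only [h1, h3, h4]
    have h6 := Nat.le_of_mul_le_mul_left h5 hP
    omega
  · rw [Nat.le_div_iff_mul_le hP]
    calc k * P ≤ k * p := Nat.mul_le_mul_left k hp2.le
      _ = p * k := mul_comm _ _
      _ ≤ 12 * N := h2.trans (by omega)

private theorem LfuY_Bs {N P H i : ℕ} (g : ℕ → ℝ) (hN : 0 < N) (hP : 0 < P) (h1 : N ≤ 4 * (i * H))
    (h2 : (i + 1) * H ≤ 5 * N) (α : ℝ) :
    Bs (Fp (cut (N / (16 * P)) (12 * N / P) g) P) H i α = Bs (Fp g P) H i α := by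
  unfold Bs
  apply Finset.sum_congr rfl
  intro m hm
  rw [mem_Ico] at hm
  rw [LfuY_cut g hN hP (by omega) (by omega)]

open Classical in
private theorem LfuY_mem_badB (g : ℕ → ℝ) (N H : ℕ) (M : ℝ) (i : ℕ) : i ∈ badB g N H M ↔
    i ∈ Icc (N / (2 * H)) (4 * N / H) ∧ ∃ α : ℝ, M < ‖Bs g H i α‖ := by
  unfold badB
  rw [Finset.mem_filter]

/-- the final contradiction -/
private theorem LfuY_end {L θ I : ℝ} {n H N k : ℕ} (hL : 100 ≤ L) (hθ : 0 < θ) (hN : 0 < N)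
    (hNn : N ≤ 2 * (n * H)) (h1 : θ ^ 2 * ((n : ℝ) * H) ^ 2 / L ^ (k + 1) ≤ I)
    (h2 : I ≤ θ ^ 2 * (N : ℝ) ^ 2 / L ^ (k + 3)) : False := by
  have hL0 : 0 < L := by linarith only [hL]
  have hNr : (0 : ℝ) < N := by exact_mod_cast hN
  have h3 := h1.trans h2
  rw [div_le_div_iff₀ (by positivity) (by positivity)] at h3
  have e1 : L ^ (k + 3) = L ^ (k + 1) * L ^ 2 := by rw [← pow_add]
  rw [e1] at h3
  have h4 : (θ ^ 2 * L ^ (k + 1)) * (((n : ℝ) * H) ^ 2 * L ^ 2) ≤ (θ ^ 2 * L ^ (k + 1)) * (N : ℝ) ^ 2 := by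
    linarith only [h3]
  have h5 : ((n : ℝ) * H) ^ 2 * L ^ 2 ≤ (N : ℝ) ^ 2 := le_of_mul_le_mul_left h4 (by positivity)
  have h6 : (N : ℝ) ≤ 2 * (n * H) := by exact_mod_cast hNn
  have h7 : (N : ℝ) ^ 2 ≤ 4 * ((n : ℝ) * H) ^ 2 := by
    have := pow_le_pow_left₀ hNr.le h6 2
    linarith only [this]
  have h8 : 0 < ((n : ℝ) * H) ^ 2 := by
    by_contra hcon
    have : (N : ℝ) ^ 2 ≤ 0 := by linarith only [h7, hcon]
    have : 0 < (N : ℝ) ^ 2 := by positivity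
    linarith only [h7, hcon, this]
  have h9 : (10000 : ℝ) ≤ L ^ 2 := by nlinarith only [hL]
  have h10 : ((n : ℝ) * H) ^ 2 * 10000 ≤ ((n : ℝ) * H) ^ 2 * L ^ 2 :=
    mul_le_mul_of_nonneg_left h9 h8.le
  linarith only [h5, h7, h8, h10]

/-- consequences of `P` being larger than all powers of the logarithm and of `Q` -/
private theorem LfuY_num {L Q : ℝ} {A C4 E N H P n : ℕ} (hL : 100 ≤ L) (hQ : 1 ≤ Q)
    (hP : 10 * (L ^ E * Q ^ 60) ≤ P) (hE : E = 2 * A + C4 + 20) (hPH : P ^ 5 ≤ H)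
    (hHN : H ^ 2 ≤ N) (hn : n = N / H) :
    100 ≤ P ∧ 1000 ≤ n ∧ 8 ≤ H ∧ n * H ≤ N ∧ N ≤ 2 * (n * H) ∧
      2 * ((1 : ℕ) : ℝ) * P * L ^ (A + 5) ≤ H ∧
      ((1 : ℕ) : ℝ) * P * (2 * L ^ (A + 5) * Q ^ 20 * L ^ (A + 4)) ≤ H ∧
      2 * L ^ (A + 5) * Q ^ 60 * (P : ℝ) ^ 3 ≤ H ∧
      2 * L ^ (A + 5) * Q ^ 20 * (n : ℝ) ^ 2 ≤ (N : ℝ) ^ 2 ∧
      (P : ℝ) * L ^ C4 * (n * (2 * L ^ (A + 5) * Q ^ 20 * L ^ (A + 3))) ≤ N ∧
      P * P ≤ N ∧ H ≤ n := by
  have hL1 : 1 ≤ L := by linarith only [hL]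
  have hL0 : 0 < L := by linarith only [hL]
  have hQ0 : 0 < Q := by linarith only [hQ]
  have hpow : ∀ k j : ℕ, k ≤ E → j ≤ 60 → 10 * (L ^ k * Q ^ j) ≤ P := by
    intro k j hk hj
    refine le_trans ?_ hP
    have h1 : L ^ k ≤ L ^ E := pow_le_pow_right₀ hL1 hk
    have h2 : Q ^ j ≤ Q ^ 60 := pow_le_pow_right₀ hQ hj
    have h3 : L ^ k * Q ^ j ≤ L ^ E * Q ^ 60 := mul_le_mul h1 h2 (by positivity) (by positivity)
    linarith only [h3]
  have hP100r : (100 : ℝ) ≤ P := by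
    have h1 := hpow 1 0 (by omega) (by omega)
    rw [pow_one, pow_zero, mul_one] at h1
    linarith only [hL, h1]
  have hP100 : 100 ≤ P := by exact_mod_cast hP100r
  have hP1 : (1 : ℝ) ≤ P := by linarith only [hP100r]
  have hPHr : (P : ℝ) ^ 5 ≤ H := by exact_mod_cast hPH
  have hP5 : P ≤ P ^ 5 := Nat.le_self_pow (by norm_num) P
  have hH0 : 0 < H := by omega
  have hP2 : 1000 ≤ P ^ 5 := by
    calc 1000 ≤ 100 ^ 5 := by norm_num
      _ ≤ P ^ 5 := Nat.pow_le_pow_left hP100 5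
  have hH1000 : 1000 ≤ H := hP2.trans hPH
  have hHn : H ≤ n := by
    rw [hn, Nat.le_div_iff_mul_le hH0]
    calc H * H = H ^ 2 := by ring
      _ ≤ N := hHN
  have hnH : n * H ≤ N := by
    rw [hn]
    exact Nat.div_mul_le_self N H
  have hnH2 : N < (n + 1) * H := by
    have := Nat.lt_mul_div_succ N hH0
    rw [← hn] at this
    rw [mul_comm]
    exact this
  have hNn : N ≤ 2 * (n * H) := by nlinarith only [hP100, hPH, hHN, hP2, hnH2, hP5]
  have hPP : ∀ x : ℝ, 0 ≤ x → x ≤ P → x * P ≤ (P : ℝ) ^ 5 := by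
    intro x hx hxP
    have h1 : x * P ≤ P * P := mul_le_mul_of_nonneg_right hxP (by linarith only [hP100r])
    have h2 : (P : ℝ) ^ 2 ≤ (P : ℝ) ^ 5 := pow_le_pow_right₀ hP1 (by norm_num)
    nlinarith only [h1, h2]
  have hPH1 : (P : ℝ) ≤ H := by
    have : (P : ℝ) ≤ (P : ℝ) ^ 5 := le_self_pow₀ hP1 (by norm_num)
    linarith only [hPHr, this]
  refine ⟨hP100, hH1000.trans hHn, by omega, hnH, hNn, ?_, ?_, ?_, ?_, ?_, ?_, hHn⟩
  · have h1 := hpow (A + 5) 0 (by omega) (by omega)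
    rw [pow_zero, mul_one] at h1
    have h2 : 2 * L ^ (A + 5) ≤ P := by
      have h4 : 0 ≤ L ^ (A + 5) := by positivity
      linarith only [hP100r, h1]
    have h5 := hPP _ (by positivity) h2
    calc 2 * ((1 : ℕ) : ℝ) * P * L ^ (A + 5) = 2 * L ^ (A + 5) * P := by
          push_cast
          ring
      _ ≤ (P : ℝ) ^ 5 := h5
      _ ≤ H := hPHr
  · have h1 := hpow ((A + 5) + (A + 4)) 20 (by omega) (by omega)
    rw [pow_add] at h1
    have h2 : 2 * L ^ (A + 5) * Q ^ 20 * L ^ (A + 4) ≤ P := by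
      have h4 : 0 ≤ (L ^ (A + 5) * L ^ (A + 4)) * Q ^ 20 := by positivity
      have h5 : 2 * L ^ (A + 5) * Q ^ 20 * L ^ (A + 4) =
          2 * ((L ^ (A + 5) * L ^ (A + 4)) * Q ^ 20) := by ring
      linarith only [hP100r, h1]
    have h5 := hPP _ (by positivity) h2
    calc ((1 : ℕ) : ℝ) * P * (2 * L ^ (A + 5) * Q ^ 20 * L ^ (A + 4)) =
          (2 * L ^ (A + 5) * Q ^ 20 * L ^ (A + 4)) * P := by
          push_cast
          ring
      _ ≤ (P : ℝ) ^ 5 := h5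
      _ ≤ H := hPHr
  · have h1 := hpow (A + 5) 60 (by omega) (by omega)
    have h2 : 2 * L ^ (A + 5) * Q ^ 60 ≤ P := by
      have : 0 ≤ L ^ (A + 5) * Q ^ 60 := by positivity
      linarith only [hP100r, h1]
    calc 2 * L ^ (A + 5) * Q ^ 60 * (P : ℝ) ^ 3 ≤ P * (P : ℝ) ^ 3 :=
          mul_le_mul_of_nonneg_right h2 (by positivity)
      _ = (P : ℝ) ^ 4 := by ring
      _ ≤ (P : ℝ) ^ 5 := pow_le_pow_right₀ hP1 (by norm_num)
      _ ≤ H := hPHr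
  · have h1 := hpow (A + 5) 20 (by omega) (by omega)
    have h2 : 2 * L ^ (A + 5) * Q ^ 20 ≤ P := by
      have : 0 ≤ L ^ (A + 5) * Q ^ 20 := by positivity
      linarith only [hP100r, h1]
    have h4 : (H : ℝ) ≤ (H : ℝ) ^ 2 := le_self_pow₀ (by linarith only [hP100r, hPH1]) (by norm_num)
    have h5 : ((n * H : ℕ) : ℝ) ≤ N := Nat.cast_le.mpr hnH
    rw [Nat.cast_mul] at h5
    calc 2 * L ^ (A + 5) * Q ^ 20 * (n : ℝ) ^ 2 ≤ (H : ℝ) ^ 2 * (n : ℝ) ^ 2 :=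
          mul_le_mul_of_nonneg_right (h2.trans (hPH1.trans h4)) (by positivity)
      _ = ((n : ℝ) * H) ^ 2 := by ring
      _ ≤ (N : ℝ) ^ 2 := pow_le_pow_left₀ (by positivity) h5 2
  · have h1 := hpow (C4 + ((A + 5) + (A + 3))) 20 (by omega) (by omega)
    rw [pow_add, pow_add] at h1
    have h2 : L ^ C4 * (2 * L ^ (A + 5) * Q ^ 20 * L ^ (A + 3)) ≤ P := by
      have h4 : 0 ≤ L ^ C4 * (L ^ (A + 5) * L ^ (A + 3)) * Q ^ 20 := by positivity
      have h5 : L ^ C4 * (2 * L ^ (A + 5) * Q ^ 20 * L ^ (A + 3)) =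
          2 * (L ^ C4 * (L ^ (A + 5) * L ^ (A + 3)) * Q ^ 20) := by ring
      linarith only [hP100r, h1]
    have h5 := hPP _ (by positivity) h2
    have h6 : ((n * H : ℕ) : ℝ) ≤ N := Nat.cast_le.mpr hnH
    rw [Nat.cast_mul] at h6
    calc (P : ℝ) * L ^ C4 * ((n : ℝ) * (2 * L ^ (A + 5) * Q ^ 20 * L ^ (A + 3))) =
          (n : ℝ) * (L ^ C4 * (2 * L ^ (A + 5) * Q ^ 20 * L ^ (A + 3)) * P) := by ring
      _ ≤ (n : ℝ) * (H : ℝ) := mul_le_mul_of_nonneg_left (h5.trans hPHr) (Nat.cast_nonneg n)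
      _ ≤ (N : ℝ) := h6
  · calc P * P = P ^ 2 := by ring
      _ ≤ P ^ 5 := Nat.pow_le_pow_right (by omega) (by norm_num)
      _ ≤ H := hPH
      _ ≤ H ^ 2 := Nat.le_self_pow (by norm_num) H
      _ ≤ N := hHN

/-- `n ≥ N^(1/4)` -/
private theorem LfuY_quarter {N H n : ℕ} (hN : 16 ≤ N) (h1 : N ≤ 2 * (n * H)) (h2 : H ≤ n) :
    (N : ℝ) ^ (1 / 4 : ℝ) ≤ n := by
  have hNr : (16 : ℝ) ≤ N := by exact_mod_cast hN
  have h3 : N ≤ 2 * (n * n) := h1.trans (by nlinarith only [h2])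
  have h4 : (N : ℝ) ≤ 2 * (n : ℝ) ^ 2 := by
    have : ((N : ℕ) : ℝ) ≤ ((2 * (n * n) : ℕ) : ℝ) := Nat.cast_le.mpr h3
    push_cast at this
    linarith only [this]
  have h5 : (N : ℝ) ≤ (n : ℝ) ^ 4 := by
    have h6 : (4 : ℝ) ≤ (n : ℝ) ^ 2 := by nlinarith only [hNr, h4]
    nlinarith only [hNr, h4, sq_nonneg ((n : ℝ) ^ 2)]
  calc (N : ℝ) ^ (1 / 4 : ℝ) ≤ ((n : ℝ) ^ 4) ^ (1 / 4 : ℝ) :=
        Real.rpow_le_rpow (by positivity) h5 (by norm_num)
    _ = n := by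
      rw [← Real.rpow_natCast, ← Real.rpow_mul (Nat.cast_nonneg n)]
      norm_num

/-- the growth condition -/
private theorem LfuY_small (t t2 : ℝ) (h02 : 0 < t2) (h2 : t2 < t) (E : ℕ) :
    ∀ᶠ N : ℕ in Filter.atTop, 10 * (Real.log N ^ E * Real.exp (Real.log N ^ t2) ^ 60) ≤
      Real.exp (Real.log N ^ t) := by
  have ht : 0 < t := h02.trans h2
  have hlog : Filter.Tendsto (fun N : ℕ => Real.log N) Filter.atTop Filter.atTop :=
    Real.tendsto_log_atTop.comp tendsto_natCast_atTop_atTop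
  have key : ∀ᶠ L : ℝ in Filter.atTop, 10 * (L ^ E * Real.exp (L ^ t2) ^ 60) ≤ Real.exp (L ^ t) := by
    have h3 : ∀ᶠ L : ℝ in Filter.atTop, 120 ≤ L ^ (t - t2) :=
      (tendsto_rpow_atTop (sub_pos.mpr h2)).eventually_ge_atTop 120
    have h4 := (isLittleO_log_rpow_atTop ht).def (c := 1 / (4 * (E + 1) : ℝ)) (by positivity)
    have h5 : ∀ᶠ L : ℝ in Filter.atTop, 16 ≤ L ^ t := (tendsto_rpow_atTop ht).eventually_ge_atTop 16
    filter_upwards [h3, h4, h5, Filter.eventually_ge_atTop 1] with L h3 h4 h5 h6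
    have hL0 : 0 < L := by linarith only [h6]
    have hLt : 0 < L ^ t := Real.rpow_pos_of_pos hL0 t
    have hLt2 : 0 < L ^ t2 := Real.rpow_pos_of_pos hL0 t2
    have h33 : L ^ t = L ^ (t - t2) * L ^ t2 := by
      rw [← Real.rpow_add hL0]
      congr 1
      ring
    have h34 : 120 * L ^ t2 ≤ L ^ t := by
      rw [h33]
      exact mul_le_mul_of_nonneg_right h3 hLt2.le
    rw [Real.norm_of_nonneg (Real.log_nonneg h6), Real.norm_of_nonneg hLt.le] at h4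
    have h7 : L ^ E = Real.exp (E * Real.log L) := by
      rw [mul_comm, Real.exp_mul, Real.exp_log hL0, Real.rpow_natCast]
    have h8 : Real.exp (L ^ t2) ^ 60 = Real.exp (60 * L ^ t2) := by
      rw [← Real.exp_nat_mul]
      norm_num
    have h9 : (10 : ℝ) ≤ Real.exp 3 := by
      have h10 : (2.7 : ℝ) ≤ Real.exp 1 := by
        have := Real.exp_one_gt_d9
        linarith only [this]
      have h11 : Real.exp 3 = Real.exp 1 ^ 3 := by
        rw [← Real.exp_nat_mul]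
        norm_num
      rw [h11]
      calc (10 : ℝ) ≤ 2.7 ^ 3 := by norm_num
        _ ≤ Real.exp 1 ^ 3 := pow_le_pow_left₀ (by norm_num) h10 3
    have h12 : E * Real.log L ≤ L ^ t / 4 := by
      have hE1 : (0 : ℝ) < 4 * (E + 1) := by positivity
      rw [one_div_mul_eq_div, le_div_iff₀ hE1] at h4
      have h13 : 0 ≤ Real.log L := Real.log_nonneg h6
      nlinarith only [h4, h13]
    calc 10 * (L ^ E * Real.exp (L ^ t2) ^ 60)
        ≤ Real.exp 3 * (L ^ E * Real.exp (L ^ t2) ^ 60) := by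
          apply mul_le_mul_of_nonneg_right h9
          positivity
      _ = Real.exp (3 + (E * Real.log L + 60 * L ^ t2)) := by
          rw [h7, h8, Real.exp_add, Real.exp_add]
      _ ≤ Real.exp (L ^ t) := by
          apply Real.exp_le_exp.mpr
          linarith only [h5, hLt2, h34, h12]
  exact hlog.eventually key

theorem lfu_y (t t1 t2 : ℝ) (h01 : 0 < t1) (h1 : t1 < t) (ht : t < 1) (h02 : 0 < t2) (h2 : t2 < t) (hVK : VKw t1)
    (hCX : CombX t t2) (A : ℕ) : ∃ C' m k N0 : ℕ, ∀ N : ℕ, N0 ≤ N →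
    ∀ (H P : ℕ) (f : ℕ → ℝ), Real.exp (Real.log N ^ t) ≤ P → P ^ 5 ≤ H → H ^ 2 ≤ N → (∀ n, |f n| ≤ 1) →
    SWf f N P C' m k →
    ((badB (Fp f P) N H (H / Real.log N ^ A)).card : ℝ) ≤ (N / H : ℝ) / Real.log N ^ A := by
  obtain ⟨C0, hC0⟩ : ∃ C0, C0 = 5 * A + 14 := ⟨_, rfl⟩
  obtain ⟨C1, N3, hcomb⟩ := hCX 30 (by norm_num) C0
  obtain ⟨C4, m, k, N1, hms1⟩ := ms_y t1 t h01 h1 hVK (2 * A + 2 * C1 + 3) C1
  obtain ⟨L0, hL0, hcon⟩ := contra_q 10 (by norm_num) A C1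
  obtain ⟨E, hE⟩ : ∃ E, E = 2 * A + C4 + 20 := ⟨_, rfl⟩
  have hlog : Filter.Tendsto (fun N : ℕ => Real.log N) Filter.atTop Filter.atTop :=
    Real.tendsto_log_atTop.comp tendsto_natCast_atTop_atTop
  obtain ⟨N0, hN0⟩ := Filter.eventually_atTop.mp ((LfuY_small t t2 h02 h2 E).and
    ((hlog.eventually_ge_atTop (max 100 L0)).and
    (Filter.eventually_ge_atTop (max (max N1 N3) 100))))
  refine ⟨C1, m, k, N0, fun N hN H P f0 hP1 hPH hHN hf1 hSW => ?_⟩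
  obtain ⟨hP2, hLL, hNN⟩ := hN0 N hN
  have hL100 : 100 ≤ Real.log N := le_trans (le_max_left _ _) hLL
  have hLL0 : L0 ≤ Real.log N := le_trans (le_max_right _ _) hLL
  have hNN1 : N1 ≤ N := le_trans (le_trans (le_max_left _ _) (le_max_left _ _)) hNN
  have hNN3 : N3 ≤ N := le_trans (le_trans (le_max_right _ _) (le_max_left _ _)) hNN
  have hN100 : 100 ≤ N := le_trans (le_max_right _ _) hNN
  have hms2 := hms1 N hNN1
  have hcomb2 := hcomb N hNN3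
  obtain ⟨L, hL⟩ : ∃ L, L = Real.log N := ⟨_, rfl⟩
  rw [← hL] at hP1 hP2 hL100 hLL0 hms2 hcomb2
  rw [← hL]
  obtain ⟨Q, hQ⟩ : ∃ Q, Q = Real.exp (L ^ t2) := ⟨_, rfl⟩
  rw [← hQ] at hP2 hcomb2
  have hNpos : 0 < N := by omega
  have hNr : (100 : ℝ) ≤ N := by exact_mod_cast hN100
  have hL1 : 1 ≤ L := by linarith only [h01, h1, ht, hL100]
  have hLpos : 0 < L := by linarith only [h01, h1, ht, hL100]
  have hQ1 : 1 ≤ Q := by
    rw [hQ]
    exact Real.one_le_exp (Real.rpow_nonneg hLpos.le t2)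
  have hQ0 : 0 < Q := by linarith only [h01, h1, ht, hQ1]
  obtain ⟨n, hn⟩ : ∃ n, n = N / H := ⟨_, rfl⟩
  obtain ⟨hP100, hn1000, hH8, hnH, hNn, hw1, hw2, hη3, hT2, hθN, hPP, hHn⟩ :=
    LfuY_num hL100 hQ1 (hP2.trans hP1) hE hPH hHN hn
  obtain ⟨Q2, hQ2⟩ : ∃ Q2, Q2 = 2 * L ^ (A + 5) * Q ^ 20 := ⟨_, rfl⟩
  rw [← hQ2] at hw2 hT2 hθN
  have hA5 : 1 ≤ L ^ (A + 5) := one_le_pow₀ hL1
  have hQ21 : 1 ≤ Q2 := by
    rw [hQ2]
    have : 1 ≤ Q ^ 20 := one_le_pow₀ hQ1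
    nlinarith only [hA5, this, h01, h1, ht]
  have hPpos : 0 < P := by omega
  have hHpos : 0 < H := by omega
  have hHr : (0 : ℝ) < H := by exact_mod_cast hHpos
  by_contra hbad
  push Not at hbad
  obtain ⟨F0, hF0⟩ : ∃ F0, F0 = badB (Fp f0 P) N H (H / L ^ A) := ⟨_, rfl⟩
  rw [← hF0] at hbad
  have hmemF : ∀ i ∈ F0, i ∈ Icc (N / (2 * H)) (4 * N / H) ∧
      ∃ α : ℝ, H / L ^ A < ‖Bs (Fp f0 P) H i α‖ := by
    intro i hi
    rw [hF0] at hi
    exact (LfuY_mem_badB _ _ _ _ _).mp hi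
  choose! α hα using fun i hi => (hmemF i hi).2
  obtain ⟨f, hf⟩ : ∃ f, f = cut (N / (16 * P)) (12 * N / P) f0 := ⟨_, rfl⟩
  have hrange := fun i hi => LfuY_range hH8 hHN (hmemF i hi).1
  rw [← hn] at hrange
  have hbig : ∀ i ∈ F0, H / L ^ A ≤ ‖Bs (Fp f P) H i (α i)‖ := by
    intro i hi
    obtain ⟨-, -, h3, h4⟩ := hrange i hi
    rw [hf, LfuY_Bs f0 hNpos hPpos h3 h4]
    exact (hα i hi).le
  have hSq0 : SqB f0 1 (N ^ 4) L := by
    intro u w hw _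
    have h1 : ∑ k ∈ Ico u (u + w), f0 k ^ 2 ≤ ∑ _k ∈ Ico u (u + w), (1 : ℝ) := by
      apply Finset.sum_le_sum
      intro j _
      exact (sq_le_one_iff_abs_le_one (f0 j)).mpr (hf1 j)
    rw [Finset.sum_const, Nat.card_Ico, Nat.add_sub_cancel_left, nsmul_eq_mul, mul_one] at h1
    refine h1.trans ?_
    have h2 : (1 : ℝ) ≤ L ^ 4 := one_le_pow₀ hL1
    have h3 : (0 : ℝ) ≤ w := Nat.cast_nonneg w
    nlinarith only [h2]
  have hSq : SqB f 1 (N ^ 4) L := by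
    intro u w hw huw
    refine le_trans (Finset.sum_le_sum (fun x _ => ?_)) (hSq0 u w hw huw)
    rw [hf]
    unfold cut
    split_ifs with hx
    · exact le_refl _
    · rw [zero_pow (by norm_num)]
      exact sq_nonneg _
  have hN4 : N ≤ N ^ 4 := Nat.le_self_pow (by norm_num) N
  have hnHr : (n : ℝ) * H ≤ N := by exact_mod_cast hnH
  have hX : 8 * 10 * (n : ℝ) * H ≤ ((N ^ 4 : ℕ) : ℝ) := by
    push_cast
    have h1 : 100 * (N : ℝ) ≤ (N : ℝ) ^ 4 := by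
      have h2 : (N : ℝ) ^ 4 = N ^ 2 * (N * N) := by ring
      rw [h2]
      have h3 : (1 : ℝ) ≤ N ^ 2 := one_le_pow₀ (by linarith only [h01, h1, ht, hNr])
      have h4 : 100 * (N : ℝ) ≤ N * N := by nlinarith only [hNr]
      nlinarith only [h4, h3]
    linarith
  have hcard : n / L ^ A ≤ (F0.card : ℝ) := by
    refine le_trans ?_ hbad.le
    apply div_le_div_of_nonneg_right _ (by positivity)
    rw [le_div_iff₀ hHr]
    exact hnHr
  have hn1000r : (1000 : ℝ) ≤ n := by exact_mod_cast hn1000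
  have hnN : n ≤ N := by
    rw [hn]
    exact Nat.div_le_self N H
  have hPN : P ≤ N := by nlinarith only [hH8, hnH, hPP, hn1000, hP100]
  obtain ⟨G0, β, R0, hRel, hR0⟩ := base 10 (by norm_num) A L n H P 1 (N ^ 4) f F0 α hL100
    (by linarith only [hn1000r]) (by omega) (by omega) hw1 hSq hX (fun i hi => ⟨(hrange i hi).1, (hrange i hi).2.1⟩)
    hcard hbig
  rw [← hC0] at hR0
  obtain ⟨η, hη⟩ : ∃ η, η = 2 * L ^ (A + 5) / H := ⟨_, rfl⟩
  have h30 : (3 : ℝ) * 10 = 30 := by norm_num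
  rw [h30, ← hη] at hRel
  have hη1 : 0 < η := by rw [hη]; positivity
  have hη0 : 0 ≤ η := hη1.le
  have hηH : η * H = 2 * L ^ (A + 5) := by
    rw [hη]
    field_simp
  obtain ⟨d, b, T, F1, hd1, hdL, hT1, hF1, hF1L, hnz⟩ := hcomb2 n P η F0 G0 α β R0 hP1 hPN hnN
    (LfuY_quarter (by omega) hNn hHn) hη1
    (by
      rw [hη]
      have h1 : 2 * L ^ (A + 5) / H * Q ^ 60 * (P : ℝ) ^ 3 =
          (2 * L ^ (A + 5) * Q ^ 60 * (P : ℝ) ^ 3) / H := by ring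
      rw [h1, div_le_one hHr]
      exact hη3)
    hRel hR0
  have hTL : |T * H| ≤ Q2 * (n : ℝ) ^ 2 := by
    rw [abs_mul, abs_of_pos hHr]
    calc |T| * H ≤ Q ^ 20 * η * (n : ℝ) ^ 2 * H := mul_le_mul_of_nonneg_right hT1 hHr.le
      _ = Q ^ 20 * (η * H) * (n : ℝ) ^ 2 := by ring
      _ = Q2 * (n : ℝ) ^ 2 := by
        rw [hηH, hQ2]
        ring
  have hnzQ : Q ^ 13 * η ≤ Q2 / H := by
    rw [le_div_iff₀ hHr]
    calc Q ^ 13 * η * H = Q ^ 13 * (η * H) := by ring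
      _ = Q ^ 13 * (2 * L ^ (A + 5)) := by rw [hηH]
      _ ≤ Q ^ 20 * (2 * L ^ (A + 5)) :=
        mul_le_mul_of_nonneg_right (pow_le_pow_right₀ hQ1 (by norm_num)) (by positivity)
      _ = Q2 := by
        rw [hQ2]
        ring
  obtain ⟨θ, hθ⟩ : ∃ θ, θ = 1 / ((n : ℝ) * (Q2 * L ^ (A + 3))) := ⟨_, rfl⟩
  have hθden : (0 : ℝ) < n * (Q2 * L ^ (A + 3)) := by positivity
  have hθ0 : 0 < θ := by rw [hθ]; positivity
  have hPN2 : P ^ 2 ≤ N := by
    rw [pow_two]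
    exact hPP
  obtain ⟨hint, hle⟩ := hms2 P (60 * N) d b 1 f0 (T * H) θ hP1
    hPN2 hd1 hdL (hTL.trans hT2) (by omega) (by omega) hθ0
    (by
      rw [hθ, div_le_one hθden]
      have h1 : (1 : ℝ) ≤ L ^ (A + 3) := one_le_pow₀ hL1
      have h2 : (1 : ℝ) ≤ Q2 * L ^ (A + 3) := by nlinarith
      nlinarith)
    (by
      rw [hθ, one_div_mul_eq_div, le_div_iff₀ hθden]
      exact hθN)
    (by
      rw [Nat.le_div_iff_mul_le hPpos]
      omega)
    hSq0 hSW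
  rw [← hf] at hint hle
  have hcon3 := hcon L Q2 n H P 1 (60 * N) (N ^ 4) f ((b : ℝ) / d) (T * H) F1 α hLL0 hQ21
    (by linarith only [hn1000r]) (by omega) (by omega) hw2 hSq hX
    (by
      push_cast
      linarith only [h01, h1, ht, hNr, hnHr])
    (fun i hi => ⟨(hrange i (hF1 hi)).1, (hrange i (hF1 hi)).2.1⟩)
    hF1L hTL
    (fun i hi => by
      have h2 : T * H / ((i : ℝ) * H) = T / i := mul_div_mul_right _ _ hHr.ne'
      rw [h2]
      exact (hnz i hi).trans hnzQ)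
    (fun i hi => hbig i (hF1 hi))
    (by
      rw [← hθ]
      exact hint)
  rw [← hθ] at hcon3
  exact LfuY_end hL100 hθ0 hNpos hNn hcon3 hle

end Pool.Agent.H43.LM
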